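import Mathlib
import Pool.Agent.Helper69_SER.Stmts

/-! # LIM: the limit -/

set_option autoImplicit false

namespace SER.H76

variable {R : Type} [Ring R]

/-- (u4) -/
theorem bij_add {X Y : Type} [AddCommGroup X] [Module R X] [AddCommGroup Y] [Module R Y]
    (hX : Chain R X) (hY : Chain R Y) (f g : X →ₗ[R] Y) (hf : Function.Injective f)
    (hf' : ¬ Function.Surjective f) (hg : Function.Surjective g) (hg' : ¬ Function.Injective g) :
    Function.Bijective (g + f) := by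
  constructor
  · rw [← LinearMap.ker_eq_bot, Submodule.eq_bot_iff]
    intro x hx
    rw [LinearMap.mem_ker, LinearMap.add_apply] at hx
    obtain ⟨y, hy, hy0⟩ : ∃ y, g y = 0 ∧ y ≠ 0 := by
      by_contra hcon
      push Not at hcon
      apply hg'
      rw [← LinearMap.ker_eq_bot, Submodule.eq_bot_iff]
      intro z hz
      exact hcon z (LinearMap.mem_ker.1 hz)
    rcases hX (Submodule.span R {x}) (Submodule.span R {y}) with h | h
    · have h1 : x ∈ Submodule.span R {y} := h (Submodule.mem_span_singleton_self x)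
      obtain ⟨r, rfl⟩ := Submodule.mem_span_singleton.1 h1
      rw [map_smul, hy, smul_zero, zero_add] at hx
      exact (map_eq_zero_iff f hf).1 hx
    · exfalso
      have h1 : y ∈ Submodule.span R {x} := h (Submodule.mem_span_singleton_self y)
      obtain ⟨r, rfl⟩ := Submodule.mem_span_singleton.1 h1
      have h2 : g (r • x) + f (r • x) = 0 := by
        rw [map_smul, map_smul, ← smul_add, hx, smul_zero]
      rw [hy, zero_add] at h2
      exact hy0 ((map_eq_zero_iff f hf).1 h2)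
  · rw [← LinearMap.range_eq_top]
    have hgt : LinearMap.range g = ⊤ := LinearMap.range_eq_top.2 hg
    rcases hY (LinearMap.range (g + f)) (LinearMap.range f) with h | h
    · exfalso
      apply hf'
      rw [← LinearMap.range_eq_top, eq_top_iff, ← hgt]
      rintro _ ⟨x, rfl⟩
      have : g x = (g + f) x - f x := by rw [LinearMap.add_apply]; abel
      rw [this]
      exact Submodule.sub_mem _ (h ⟨x, rfl⟩) ⟨x, rfl⟩
    · rw [eq_top_iff, ← hgt]
      rintro _ ⟨x, rfl⟩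
      have : g x = (g + f) x - f x := by rw [LinearMap.add_apply]; abel
      rw [this]
      exact Submodule.sub_mem _ ⟨x, rfl⟩ (h ⟨x, rfl⟩)

/-- limits of sequences of linear maps which are eventually constant at each point -/
theorem exists_lim {X Y : Type} [AddCommGroup X] [Module R X] [AddCommGroup Y] [Module R Y]
    (f : ℕ → (X →ₗ[R] Y)) (h : ∀ x, ∃ n, ∀ m, n ≤ m → f m x = f n x) :
    ∃ g : X →ₗ[R] Y, ∀ x, ∃ n, ∀ m, n ≤ m → f m x = g x := by
  choose n hn using h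
  refine ⟨{ toFun := fun x => f (n x) x, map_add' := ?_, map_smul' := ?_ }, fun x => ⟨n x, hn x⟩⟩
  · intro x y
    set m := max (n (x + y)) (max (n x) (n y)) with hm
    rw [← hn (x + y) m (le_max_left _ _), ← hn x m ((le_max_left _ _).trans (le_max_right _ _)),
      ← hn y m ((le_max_right _ _).trans (le_max_right _ _)), map_add]
  · intro r x
    set m := max (n (r • x)) (n x) with hm
    rw [RingHom.id_apply, ← hn (r • x) m (le_max_left _ _), ← hn x m (le_max_right _ _), map_smul]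

variable {W : Type} [AddCommGroup W] [Module R W] (T : Tow R W)

theorem e_mem_V (n : ℕ) (x : W) : T.e n x ∈ T.V :=
  (le_iSup (fun n => LinearMap.range (T.e n)) n) ⟨x, rfl⟩

theorem range_mono {k n : ℕ} (h : k ≤ n) : LinearMap.range (T.e k) ≤ LinearMap.range (T.e n) := by
  rcases h.eq_or_lt with rfl | h
  · exact le_rfl
  · rintro _ ⟨x, rfl⟩
    exact ⟨T.e k x, T.ee k n h x⟩

theorem e_fix {k n : ℕ} (h : k < n) {v : W} (hv : v ∈ LinearMap.range (T.e k)) : T.e n v = v := by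
  obtain ⟨x, rfl⟩ := hv
  exact T.ee k n h x

theorem mem_V {v : W} (hv : v ∈ T.V) : ∃ n, v ∈ LinearMap.range (T.e n) := by
  have hd : Directed (· ≤ ·) (fun n => LinearMap.range (T.e n)) :=
    directed_of_isDirected_le (fun _ _ h => range_mono T h)
  exact (Submodule.mem_iSup_of_directed _ hd).1 hv

theorem uni_V (hW : Uni R W) : Uni R T.V := by
  obtain ⟨h1, h2⟩ := hW
  refine ⟨?_, ?_⟩
  · obtain ⟨x, hx⟩ := exists_ne (0 : W)
    refine ⟨⟨⟨T.e 0 x, e_mem_V T 0 x⟩, 0, fun h => hx ?_⟩⟩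
    have := congrArg Subtype.val h
    exact (map_eq_zero_iff _ (T.e_inj 0)).1 this
  · intro A B
    rcases h2 (A.map T.V.subtype) (B.map T.V.subtype) with h | h
    · exact Or.inl ((Submodule.map_le_map_iff_of_injective T.V.injective_subtype A B).1 h)
    · exact Or.inr ((Submodule.map_le_map_iff_of_injective T.V.injective_subtype B A).1 h)

/-- the data of a step -/
theorem key (hLX : LXStmt) (hW : Uni R W) (W' : Type) [AddCommGroup W'] [Module R W']
    (hW' : Uni R W') (h1 : Sq R W' W) (h2 : Sq R W W') (k : ℕ) (hk : 1 ≤ k) :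
    ∃ (p : W →ₗ[R] W') (c : W' →ₗ[R] W'), (1 ≤ k → ∀ x, p (T.e k x) = 0) ∧
    Function.Surjective c ∧ ¬ Function.Injective c ∧ (∀ x, c (p (T.e (k + 2) x)) = 0) ∧
    ∀ δ : T.V →ₗ[R] T.V, (1 ≤ k → ∀ v : T.V, (v : W) ∈ LinearMap.range (T.e (k + 1)) → δ v = 0) →
      ∃ ρ : W' →ₗ[R] T.V, ∀ v : T.V, (v : W) ∈ LinearMap.range (T.e (k + 2)) →
        ρ (p (v : W)) = δ v := by
  obtain ⟨p, c, hp, hc1, hc2, hc3, hδ⟩ := hLX R W hW T W' hW' h1 h2 k
  exact ⟨p, c, fun _ => hp, hc1, hc2, hc3, fun δ h => hδ δ (h hk)⟩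

/-- the data of the first step -/
theorem key0 (hW : Uni R W) :
    ∃ (p : W →ₗ[R] W) (c : W →ₗ[R] W), (1 ≤ 0 → ∀ x, p (T.e 0 x) = 0) ∧
    Function.Surjective c ∧ ¬ Function.Injective c ∧ (∀ x, c (p (T.e (0 + 2) x)) = 0) ∧
    ∀ δ : T.V →ₗ[R] T.V, (1 ≤ 0 → ∀ v : T.V, (v : W) ∈ LinearMap.range (T.e (0 + 1)) → δ v = 0) →
      ∃ ρ : W →ₗ[R] T.V, ∀ v : T.V, (v : W) ∈ LinearMap.range (T.e (0 + 2)) →
        ρ (p (v : W)) = δ v := by
  refine ⟨LinearMap.id, T.d 2, fun h => absurd h (by omega), T.d_surj 2, ?_, fun x => T.de 2 x, ?_⟩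
  · intro hinj
    obtain ⟨x, hx⟩ := @exists_ne W hW.1 0
    apply hx
    have h1 : T.e 2 x = 0 := hinj (by rw [T.de, map_zero])
    exact (map_eq_zero_iff _ (T.e_inj 2)).1 h1
  · intro δ _
    refine ⟨δ ∘ₗ (T.e 3).codRestrict T.V (e_mem_V T 3), fun v hv => ?_⟩
    show δ ((T.e 3).codRestrict T.V (e_mem_V T 3) (v : W)) = δ v
    congr 1
    apply Subtype.ext
    exact e_fix T (by omega) hv

/-- the state of the recursion -/
structure St {N : Type} [AddCommGroup N] [Module R N] (T : Tow R W) (W' : ℕ → ModuleCat.{0} R)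
    (β : ∀ n, N →ₗ[R] W' n) (k : ℕ) where
  a : T.V →ₗ[R] N
  B : N →ₗ[R] T.V
  ba : ∀ j, k ≤ j → ∀ v, β j (a v) = 0
  Ba : 1 ≤ k → ∀ v : T.V, (v : W) ∈ LinearMap.range (T.e (k + 1)) → B (a v) = v

theorem step {N : Type} [AddCommGroup N] [Module R N] (hNU : NoUni R N) (T : Tow R W)
    (W' : ℕ → ModuleCat.{0} R) (hU : ∀ n, Uni R (W' n)) (α : ∀ n, W' n →ₗ[R] N)
    (β : ∀ n, N →ₗ[R] W' n) (hinj : ∀ n, Function.Injective (β n ∘ₗ α n))
    (hβα : ∀ k n, k < n → β n ∘ₗ α k = 0) (k : ℕ)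
    (hkey : ∃ (p : W →ₗ[R] W' k) (c : W' k →ₗ[R] W' k), (1 ≤ k → ∀ x, p (T.e k x) = 0) ∧
      Function.Surjective c ∧ ¬ Function.Injective c ∧ (∀ x, c (p (T.e (k + 2) x)) = 0) ∧
      ∀ δ : T.V →ₗ[R] T.V,
        (1 ≤ k → ∀ v : T.V, (v : W) ∈ LinearMap.range (T.e (k + 1)) → δ v = 0) →
        ∃ ρ : W' k →ₗ[R] T.V, ∀ v : T.V, (v : W) ∈ LinearMap.range (T.e (k + 2)) →
          ρ (p (v : W)) = δ v)
    (s : St T W' β k) : ∃ (s' : St T W' β (k + 1)) (p : T.V →ₗ[R] W' k) (b : W' k →ₗ[R] T.V),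
      (∀ v, s'.a v = s.a v + α k (p v)) ∧ (∀ m, s'.B m = s.B m + b (β k m)) ∧
      (1 ≤ k → ∀ v : T.V, (v : W) ∈ LinearMap.range (T.e k) → p v = 0) := by
  obtain ⟨p, c, hp, hc1, hc2, hc3, hδ⟩ := hkey
  obtain ⟨ρ, hρ⟩ := hδ (LinearMap.id - s.B ∘ₗ s.a) (fun hk v hv => by
    rw [LinearMap.sub_apply, LinearMap.comp_apply, s.Ba hk v hv, LinearMap.id_apply, sub_self])
  have hns : ¬ Function.Surjective (β k ∘ₗ α k) := fun h =>
    hNU (W' k) (hU k) (α k) (β k) ⟨hinj k, h⟩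
  have hbij := bij_add (hU k).2 (hU k).2 (β k ∘ₗ α k) c (hinj k) hns hc1 hc2
  let w : W' k ≃ₗ[R] W' k := LinearEquiv.ofBijective _ hbij
  have hw : ∀ x, w x = c x + β k (α k x) := fun x => rfl
  let b : W' k →ₗ[R] T.V := (ρ - s.B ∘ₗ α k) ∘ₗ w.symm.toLinearMap
  have hb : ∀ x, b (w x) = ρ x - s.B (α k x) := by
    intro x
    show (ρ - s.B ∘ₗ α k) (w.symm (w x)) = _
    rw [w.symm_apply_apply]
    rfl
  let p' : T.V →ₗ[R] W' k := p ∘ₗ T.V.subtype
  have hp' : ∀ v : T.V, p' v = p (v : W) := fun v => rfl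
  refine ⟨⟨s.a + α k ∘ₗ p', s.B + b ∘ₗ β k, ?_, ?_⟩, p', b, fun v => rfl, fun m => rfl, ?_⟩
  · intro j hj v
    have h1 : β j (α k (p' v)) = 0 := LinearMap.congr_fun (hβα k j (by omega)) (p' v)
    rw [LinearMap.add_apply, map_add, s.ba j (by omega), zero_add]
    exact h1
  · intro _ v hv
    have h1 : c (p (v : W)) = 0 := by
      obtain ⟨x, hx⟩ := hv
      rw [← hx]
      exact hc3 x
    have h2 : w (p' v) = β k (α k (p' v)) := by
      rw [hw, hp', h1, zero_add]
    have h3 : b (β k (α k (p' v))) = ρ (p (v : W)) - s.B (α k (p' v)) := by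
      rw [← h2, hb, hp']
    have h4 : ρ (p (v : W)) = v - s.B (s.a v) := hρ v hv
    have h5 : β k (s.a v) = 0 := s.ba k le_rfl v
    show s.B (s.a v + α k (p' v)) + b (β k (s.a v + α k (p' v))) = v
    rw [map_add, map_add, h5, zero_add, h3, h4]
    abel
  · intro hk v hv
    obtain ⟨x, hx⟩ := hv
    rw [hp', ← hx]
    exact hp hk x

theorem lim (hLX : LXStmt) : LimStmt := by
  intro R _ N _ _ hNU W' hU hSq hSq' α β hinj hβα hfin T
  have hkey : ∀ k, ∃ (p : W' 0 →ₗ[R] W' k) (c : W' k →ₗ[R] W' k),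
      (1 ≤ k → ∀ x, p (T.e k x) = 0) ∧
      Function.Surjective c ∧ ¬ Function.Injective c ∧ (∀ x, c (p (T.e (k + 2) x)) = 0) ∧
      ∀ δ : T.V →ₗ[R] T.V,
        (1 ≤ k → ∀ v : T.V, (v : W' 0) ∈ LinearMap.range (T.e (k + 1)) → δ v = 0) →
        ∃ ρ : W' k →ₗ[R] T.V, ∀ v : T.V, (v : W' 0) ∈ LinearMap.range (T.e (k + 2)) →
          ρ (p (v : W' 0)) = δ v := by
    intro k
    cases k with
    | zero => exact key0 T (hU 0)
    | succ k => exact key T hLX (hU 0) (W' (k + 1)) (hU _) (hSq _) (hSq' _) (k + 1) (by omega)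
  have hstep := fun k => step hNU T W' hU α β hinj hβα k (hkey k)
  choose nx pf bf hna hnB hpk using hstep
  let s₀ : St T W' β 0 := ⟨0, 0, fun j _ v => by rw [LinearMap.zero_apply, map_zero],
    fun h => absurd h (by omega)⟩
  let s : ∀ k, St T W' β k := fun k => Nat.rec s₀ (fun k s => nx k s) k
  have hs : ∀ k, s (k + 1) = nx k (s k) := fun k => rfl
  -- the limits
  have hna' : ∀ (v : T.V) n, 1 ≤ n → (v : W' 0) ∈ LinearMap.range (T.e n) → ∀ m, n ≤ m →
      (s m).a v = (s n).a v := by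
    intro v n hn hv m hm
    induction m, hm using Nat.le_induction with
    | base => rfl
    | succ m hm ih =>
      rw [hs, hna, ih, hpk m (s m) (hn.trans hm) v (range_mono T hm hv), map_zero, add_zero]
  have hev : ∀ v : T.V, ∃ n, 1 ≤ n ∧ (v : W' 0) ∈ LinearMap.range (T.e n) := by
    intro v
    obtain ⟨n, hn⟩ := mem_V T v.2
    exact ⟨n + 1, by omega, range_mono T (Nat.le_succ n) hn⟩
  obtain ⟨a, ha⟩ := exists_lim (fun k => (s k).a) (by
    intro v
    obtain ⟨n, hn, hv⟩ := hev v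
    exact ⟨n, hna' v n hn hv⟩)
  obtain ⟨b, hb⟩ := exists_lim (fun k => (s k).B) (by
    intro m
    obtain ⟨n, hn⟩ := (hfin m).bddAbove
    refine ⟨n + 1, fun k hk => ?_⟩
    induction k, hk using Nat.le_induction with
    | base => rfl
    | succ k hk ih =>
      have h0 : β k m = 0 := by
        by_contra hne
        have := hn hne
        omega
      rw [← ih]
      show (s (k + 1)).B m = (s k).B m
      rw [hs, hnB, h0, map_zero, add_zero])
  have hid : b ∘ₗ a = LinearMap.id := by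
    ext1 v
    obtain ⟨n, hn, hv⟩ := hev v
    obtain ⟨n₁, hn₁⟩ := ha v
    obtain ⟨n₂, hn₂⟩ := hb (a v)
    set m := max n (max n₁ n₂) with hm
    have h1 : (s m).a v = a v := hn₁ m ((le_max_left _ _).trans (le_max_right _ _))
    have h2 : (s m).B (a v) = b (a v) := hn₂ m ((le_max_right _ _).trans (le_max_right _ _))
    rw [LinearMap.comp_apply, LinearMap.id_apply, ← h2, ← h1]
    exact (s m).Ba (hn.trans (le_max_left _ _)) v
      (range_mono T ((le_max_left _ _).trans (Nat.le_succ m)) hv)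
  refine hNU T.V (uni_V T (hU 0)) a b ?_
  rw [hid]
  exact Function.bijective_id

end SER.H76
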