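import Mathlib
import Pool.Agent.Helper76_SER.Lim

/-! # LX: Lemma X -/

set_option autoImplicit false

namespace SER.H76

variable {R : Type} [Ring R]

theorem sq_refl (X : Type) [AddCommGroup X] [Module R X] : Sq R X X :=
  ⟨⊤, Submodule.subtype ⊤, fun x => ⟨⟨x, trivial⟩, rfl⟩⟩

theorem sq_of_surj {X Y : Type} [AddCommGroup X] [Module R X] [AddCommGroup Y] [Module R Y]
    (f : Y →ₗ[R] X) (hf : Function.Surjective f) : Sq R X Y :=
  ⟨⊤, f ∘ₗ Submodule.subtype ⊤, fun x => by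
    obtain ⟨y, rfl⟩ := hf x
    exact ⟨⟨y, trivial⟩, rfl⟩⟩

theorem sq_of_inj {X Y : Type} [AddCommGroup X] [Module R X] [AddCommGroup Y] [Module R Y]
    (f : X →ₗ[R] Y) (hf : Function.Injective f) : Sq R X Y :=
  ⟨LinearMap.range f, (LinearEquiv.ofInjective f hf).symm.toLinearMap,
    (LinearEquiv.ofInjective f hf).symm.surjective⟩

theorem sq_trans {X Y Z : Type} [AddCommGroup X] [Module R X] [AddCommGroup Y] [Module R Y]
    [AddCommGroup Z] [Module R Z] (h1 : Sq R X Y) (h2 : Sq R Y Z) : Sq R X Z := by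
  obtain ⟨D, φ, hφ⟩ := h1
  obtain ⟨E, ψ, hψ⟩ := h2
  -- the preimage of `D` under `ψ`
  let F : Submodule R E := D.comap ψ
  let F' : Submodule R Z := F.map E.subtype
  have hmem : ∀ x : F', (x : Z) ∈ E ∧ ∀ h : (x : Z) ∈ E, ψ ⟨(x : Z), h⟩ ∈ D := by
    rintro ⟨x, y, hy, rfl⟩
    exact ⟨y.2, fun h => hy⟩
  let g : F' →ₗ[R] D :=
    { toFun := fun x => ⟨ψ ⟨(x : Z), (hmem x).1⟩, (hmem x).2 _⟩
      map_add' := fun x y => Subtype.ext (by
        show ψ _ = ψ _ + ψ _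
        rw [← map_add]
        rfl)
      map_smul' := fun r x => Subtype.ext (by
        show ψ _ = r • ψ _
        rw [← map_smul]
        rfl) }
  refine ⟨F', φ ∘ₗ g, fun x => ?_⟩
  obtain ⟨d, rfl⟩ := hφ x
  obtain ⟨e, he⟩ := hψ (d : Y)
  have heF : e ∈ F := by
    show ψ e ∈ D
    rw [he]
    exact d.2
  refine ⟨⟨(e : Z), e, heF, rfl⟩, ?_⟩
  show φ (g _) = φ d
  congr 1
  apply Subtype.ext
  exact he

theorem uni_quot {X : Type} [AddCommGroup X] [Module R X] (hX : Uni R X) (P : Submodule R X)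
    (hP : P ≠ ⊤) : Uni R (X ⧸ P) := by
  refine ⟨Submodule.Quotient.nontrivial_iff.2 hP, fun A B => ?_⟩
  rcases hX.2 (A.comap P.mkQ) (B.comap P.mkQ) with h | h
  · exact Or.inl ((Submodule.comap_le_comap_iff_of_surjective P.mkQ_surjective).1 h)
  · exact Or.inr ((Submodule.comap_le_comap_iff_of_surjective P.mkQ_surjective).1 h)

theorem lx (hL1 : L1Stmt) (hD1 : D1qStmt) : LXStmt := by
  intro R _ W _ _ hW T W' _ _ hW' hSq hSq' n
  obtain ⟨D, φ, hφ⟩ := hSq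
  have hne : ∃ x : W, x ≠ 0 := @exists_ne W hW.1 0
  -- the submodule `P`
  let K : Submodule R W := ((LinearMap.ker φ).map D.subtype).comap (T.d n)
  let P : Submodule R W := K.map (T.e (n + 1))
  have hPle : P ≤ LinearMap.range (T.e (n + 1)) := by
    rintro _ ⟨x, -, rfl⟩
    exact ⟨x, rfl⟩
  have hP1 : ∀ x, T.e n x ∈ P := by
    intro x
    refine ⟨T.e n x, ?_, T.ee n (n + 1) (Nat.lt_succ_self n) x⟩
    show T.d n (T.e n x) ∈ (LinearMap.ker φ).map D.subtype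
    rw [T.de]
    exact Submodule.zero_mem _
  have hPtop : P ≠ ⊤ := by
    intro h
    obtain ⟨x, hx⟩ := hne
    obtain ⟨y, hy⟩ := T.d_surj (n + 1) x
    have : y ∈ LinearMap.range (T.e (n + 1)) := hPle (h ▸ trivial)
    obtain ⟨z, rfl⟩ := this
    rw [T.de] at hy
    exact hx hy.symm
  have hVm : ∀ k l, k ≤ l → LinearMap.range (T.e k) ≤ LinearMap.range (T.e l) :=
    fun k l h => range_mono T h
  -- there is an element of `V_{n+2}` outside of `V_{n+1}`
  have hstrict : ∃ x, T.e (n + 2) x ∉ LinearMap.range (T.e (n + 1)) := by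
    by_contra hcon
    push Not at hcon
    obtain ⟨x, hx⟩ := hne
    obtain ⟨y, hy⟩ := T.d_surj (n + 1) x
    obtain ⟨z, hz⟩ := hcon y
    have h1 : T.e (n + 2) (T.e (n + 1) z) = T.e (n + 2) y := by
      rw [T.ee (n + 1) (n + 2) (Nat.lt_succ_self _), hz]
    have h2 := T.e_inj (n + 2) h1
    rw [← h2, T.de] at hy
    exact hx hy.symm
  -- `j : W' → W/P`
  let Y : Submodule R W := D.comap (T.d n)
  let dY : Y →ₗ[R] D := (T.d n).restrict (fun y hy => hy)
  let ψ : Y →ₗ[R] W' := φ ∘ₗ dY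
  have hψ : Function.Surjective ψ := by
    intro x
    obtain ⟨d, rfl⟩ := hφ x
    obtain ⟨y, hy⟩ := T.d_surj n (d : W)
    refine ⟨⟨y, ?_⟩, ?_⟩
    · show T.d n y ∈ D
      rw [hy]
      exact d.2
    · show φ _ = φ d
      congr 1
      exact Subtype.ext hy
  let κ : Y →ₗ[R] W ⧸ P := P.mkQ ∘ₗ (T.e (n + 1)) ∘ₗ Y.subtype
  have hκ : ∀ y : Y, κ y = P.mkQ (T.e (n + 1) (y : W)) := fun y => rfl
  have hker : LinearMap.ker κ = LinearMap.ker ψ := by
    ext y
    rw [LinearMap.mem_ker, LinearMap.mem_ker, hκ, Submodule.mkQ_apply,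
      Submodule.Quotient.mk_eq_zero]
    constructor
    · rintro ⟨z, hz, hzy⟩
      have h1 : z = (y : W) := T.e_inj (n + 1) hzy
      subst h1
      obtain ⟨d, hd, hd'⟩ := hz
      have h2 : dY y = d := Subtype.ext hd'.symm
      show φ (dY y) = 0
      rw [h2]
      exact hd
    · intro hy
      exact ⟨(y : W), ⟨dY y, hy, rfl⟩, rfl⟩
  let j : W' →ₗ[R] W ⧸ P := ((LinearMap.ker ψ).liftQ κ hker.ge) ∘ₗ
    (ψ.quotKerEquivOfSurjective hψ).symm.toLinearMap
  have hj : ∀ y : Y, j (ψ y) = κ y := by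
    intro y
    show ((LinearMap.ker ψ).liftQ κ hker.ge) ((ψ.quotKerEquivOfSurjective hψ).symm (ψ y)) = κ y
    have h1 : (ψ.quotKerEquivOfSurjective hψ).symm (ψ y) = (LinearMap.ker ψ).mkQ y := by
      rw [LinearEquiv.symm_apply_eq]
      rfl
    rw [h1]
    rfl
  have hjinj : Function.Injective j := by
    rw [← LinearMap.ker_eq_bot, Submodule.eq_bot_iff]
    intro x hx
    obtain ⟨y, rfl⟩ := hψ x
    rw [LinearMap.mem_ker, hj, ← LinearMap.mem_ker, hker] at hx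
    exact hx
  have hQ : Uni R (W ⧸ P) := uni_quot hW P hPtop
  have hSqQ : Sq R (W ⧸ P) W' := sq_trans (sq_of_surj P.mkQ P.mkQ_surjective) hSq'
  obtain ⟨pb, hpb⟩ := hL1 R W' (W ⧸ P) W' hW' hQ hW' hSqQ j LinearMap.id hjinj
    Function.surjective_id
  let p : W →ₗ[R] W' := pb ∘ₗ P.mkQ
  have hp0 : ∀ x, p x = 0 ↔ x ∈ P := by
    intro x
    show pb (P.mkQ x) = 0 ↔ _
    rw [map_eq_zero_iff pb hpb, Submodule.mkQ_apply, Submodule.Quotient.mk_eq_zero]
  -- the map `c`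
  let Tm : Submodule R W' := (LinearMap.range (T.e (n + 2))).map p
  have hSqc : Sq R W' (W' ⧸ Tm) := by
    have s1 : Sq R W' W := ⟨D, φ, hφ⟩
    have hkd : LinearMap.range (T.e (n + 2)) ≤ LinearMap.ker (T.d (n + 2)) := by
      rintro _ ⟨x, rfl⟩
      exact T.de _ _
    have s2 : Sq R W (W ⧸ LinearMap.range (T.e (n + 2))) :=
      sq_of_surj ((LinearMap.range (T.e (n + 2))).liftQ (T.d (n + 2)) hkd) (fun x => by
        obtain ⟨y, rfl⟩ := T.d_surj (n + 2) x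
        exact ⟨(LinearMap.range (T.e (n + 2))).mkQ y, rfl⟩)
    have s3 : Sq R (W ⧸ LinearMap.range (T.e (n + 2))) (W' ⧸ Tm) := by
      have hle : LinearMap.range (T.e (n + 2)) ≤ Tm.comap p := Submodule.le_comap_map _ _
      refine sq_of_inj ((LinearMap.range (T.e (n + 2))).mapQ Tm p hle) ?_
      rw [← LinearMap.ker_eq_bot, Submodule.eq_bot_iff]
      intro z hz
      obtain ⟨x, rfl⟩ := Submodule.mkQ_surjective _ z
      have hz' : Tm.mkQ (p x) = 0 := hz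
      rw [Submodule.mkQ_apply, Submodule.Quotient.mk_eq_zero] at hz'
      have hz := hz'
      obtain ⟨y, hy, hyx⟩ := hz
      have h1 : y - x ∈ P := by
        rw [← hp0, map_sub, hyx, sub_self]
      have h2 : y - x ∈ LinearMap.range (T.e (n + 2)) := hVm (n + 1) (n + 2) (Nat.le_succ _)
        (hPle h1)
      rw [Submodule.mkQ_apply, Submodule.Quotient.mk_eq_zero]
      have h3 : x = y - (y - x) := by abel
      rw [h3]
      exact Submodule.sub_mem _ hy h2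
    exact sq_trans s1 (sq_trans s2 s3)
  obtain ⟨c, hc, hcT⟩ := hD1 R W' hW' Tm hSqc
  have hc0 : ∀ x, c (p (T.e (n + 2) x)) = 0 := fun x => hcT ⟨T.e (n + 2) x, ⟨x, rfl⟩, rfl⟩
  refine ⟨p, c, fun x => (hp0 _).2 (hP1 x), hc, ?_, hc0, ?_⟩
  · intro hcinj
    obtain ⟨x, hx⟩ := hstrict
    apply hx
    apply hPle
    rw [← hp0]
    exact hcinj (by rw [hc0, map_zero])
  -- the maps `ρ`
  intro δ hδ
  let g : W ⧸ P →ₗ[R] W ⧸ P := j ∘ₗ pb
  have hg : Function.Injective g := hjinj.comp hpb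
  have hPd : P ≤ LinearMap.ker (P.mkQ ∘ₗ T.d (n + 2)) := by
    intro x hx
    obtain ⟨y, rfl⟩ := hVm (n + 1) (n + 2) (Nat.le_succ _) (hPle hx)
    rw [LinearMap.mem_ker, LinearMap.comp_apply, T.de, map_zero]
  let db : W ⧸ P →ₗ[R] W ⧸ P := P.liftQ (P.mkQ ∘ₗ T.d (n + 2)) hPd
  have hdb : ∀ x, db (P.mkQ x) = P.mkQ (T.d (n + 2) x) := fun x => rfl
  have hdbs : Function.Surjective db := by
    intro z
    obtain ⟨x, rfl⟩ := P.mkQ_surjective z
    obtain ⟨y, rfl⟩ := T.d_surj (n + 2) x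
    exact ⟨P.mkQ y, rfl⟩
  have hdbi : ¬ Function.Injective db := by
    intro h
    obtain ⟨x, hx⟩ := hstrict
    apply hx
    apply hPle
    rw [← Submodule.Quotient.mk_eq_zero P]
    apply h
    rw [map_zero]
    show db (P.mkQ (T.e (n + 2) x)) = 0
    rw [hdb, T.de, map_zero]
  obtain ⟨w, hw, hwg⟩ : ∃ w : W ⧸ P →ₗ[R] W ⧸ P, Function.Bijective w ∧
      ∀ v ∈ LinearMap.range (T.e (n + 2)), w (P.mkQ v) = g (P.mkQ v) := by
    by_cases hgs : Function.Surjective g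
    · exact ⟨g, ⟨hg, hgs⟩, fun _ _ => rfl⟩
    · refine ⟨db + g, bij_add hQ.2 hQ.2 g db hg hgs hdbs hdbi, fun v hv => ?_⟩
      obtain ⟨x, rfl⟩ := hv
      rw [LinearMap.add_apply, hdb, T.de, map_zero, zero_add]
  let we : (W ⧸ P) ≃ₗ[R] W ⧸ P := LinearEquiv.ofBijective w hw
  -- the map on the quotient
  let em : W →ₗ[R] T.V := (T.e (n + 3)).codRestrict T.V (e_mem_V T (n + 3))
  have hPδ : P ≤ LinearMap.ker (δ ∘ₗ em) := by
    intro x hx
    rw [LinearMap.mem_ker]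
    apply hδ
    show T.e (n + 3) x ∈ _
    rw [e_fix T (by omega : n + 1 < n + 3) (hPle hx)]
    exact hPle hx
  let ρ₀ : W ⧸ P →ₗ[R] T.V := P.liftQ (δ ∘ₗ em) hPδ
  refine ⟨ρ₀ ∘ₗ we.symm.toLinearMap ∘ₗ j, fun v hv => ?_⟩
  show ρ₀ (we.symm (j (p (v : W)))) = δ v
  have h1 : we.symm (j (p (v : W))) = P.mkQ (v : W) := by
    rw [LinearEquiv.symm_apply_eq]
    show j (pb (P.mkQ (v : W))) = w (P.mkQ (v : W))
    rw [hwg _ hv]
    rfl
  rw [h1]
  show δ (em (v : W)) = δ v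
  congr 1
  apply Subtype.ext
  exact e_fix T (by omega) hv

end SER.H76
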